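import Pool.Agent.Y520.NP.Stm
import Pool.Agent.H362R2.QT.TOT
import Pool.Agent.H362R2.QT.ONE
import Pool.Agent.H362R2.QT.PAIR
import Pool.Agent.H362R2.QT.RAMP
import Pool.Agent.H362R2.QT.BV
import Pool.Agent.H362R2.QT.PRG
import Pool.Agent.TH891.PR.P3

/-! # Project NP, task BLK: sieve weights for blocks -/

set_option autoImplicit false

open Finset Filter Topology
open scoped ContDiff

namespace Pool.Agent.Y291.NP

/-- the square of a sum of idempotents -/
lemma sq_idem {ι : Type} [DecidableEq ι] (s : Finset ι) (g : ι → ℝ) (hg : ∀ i, g i * g i = g i) :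
    (∑ i ∈ s, g i) ^ 2 = ∑ i ∈ s, g i + ∑ i ∈ s, ∑ j ∈ s.erase i, g i * g j := by
  rw [sq, sum_mul_sum, ← sum_add_distrib]
  apply sum_congr rfl
  intro i hi
  rw [← add_sum_erase s _ hi, hg]

/-- the mass of the `n` with at least one property, bounded below by two moments -/
lemma mass {ι : Type} [DecidableEq ι] (I : Finset ℕ) (μ : ℕ → ℝ) (hμ : ∀ n, 0 ≤ μ n) (s : Finset ι)
    (P : ℕ → ι → Prop) [∀ n i, Decidable (P n i)] (T : Finset ℕ) (hTI : T ⊆ I)
    (hT : ∀ n ∈ I, ∀ i ∈ s, P n i → n ∈ T) (lam : ℝ) :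
    (2 * lam - lam ^ 2) * (∑ i ∈ s, ∑ n ∈ I, μ n * (if P n i then 1 else 0)) -
      lam ^ 2 * (∑ i ∈ s, ∑ j ∈ s.erase i, ∑ n ∈ I, μ n * ((if P n i then 1 else 0) * (if P n j then 1 else 0))) ≤
      ∑ n ∈ T, μ n := by
  have e1 : ∑ i ∈ s, ∑ n ∈ I, μ n * (if P n i then (1:ℝ) else 0) =
      ∑ n ∈ I, μ n * ∑ i ∈ s, (if P n i then (1:ℝ) else 0) := by
    rw [sum_comm]
    exact sum_congr rfl fun n _ => (mul_sum _ _ _).symm
  have e2 : ∑ i ∈ s, ∑ j ∈ s.erase i, ∑ n ∈ I, μ n * ((if P n i then (1:ℝ) else 0) * (if P n j then 1 else 0)) =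
      ∑ n ∈ I, μ n * ∑ i ∈ s, ∑ j ∈ s.erase i, (if P n i then (1:ℝ) else 0) * (if P n j then 1 else 0) := by
    symm
    calc ∑ n ∈ I, μ n * ∑ i ∈ s, ∑ j ∈ s.erase i, (if P n i then (1:ℝ) else 0) * (if P n j then 1 else 0) =
        ∑ n ∈ I, ∑ i ∈ s, ∑ j ∈ s.erase i, μ n * ((if P n i then (1:ℝ) else 0) * (if P n j then 1 else 0)) := by
          simp only [mul_sum]
      _ = ∑ i ∈ s, ∑ n ∈ I, ∑ j ∈ s.erase i, μ n * ((if P n i then (1:ℝ) else 0) * (if P n j then 1 else 0)) := sum_comm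
      _ = _ := sum_congr rfl fun i _ => sum_comm
  have e3 : ∑ n ∈ T, μ n = ∑ n ∈ I, μ n * (if n ∈ T then 1 else 0) := by
    simp only [mul_ite, mul_one, mul_zero]
    rw [← sum_filter]
    congr 1
    ext n
    rw [mem_filter]
    exact ⟨fun h => ⟨hTI h, h⟩, fun h => h.2⟩
  rw [e1, e2, e3, mul_sum, mul_sum, ← sum_sub_distrib]
  apply sum_le_sum
  intro n hn
  have h1 := sq_idem s (fun i => if P n i then (1:ℝ) else 0) (fun i => by split_ifs <;> norm_num)
  beta_reduce at h1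
  set N := ∑ i ∈ s, (if P n i then (1:ℝ) else 0) with hN
  set M := ∑ i ∈ s, ∑ j ∈ s.erase i, (if P n i then (1:ℝ) else 0) * (if P n j then 1 else 0) with hM
  have h2 : (2 * lam - lam ^ 2) * (μ n * N) - lam ^ 2 * (μ n * M) = μ n * (2 * lam * N - lam ^ 2 * N ^ 2) := by
    rw [h1]; ring
  rw [h2]
  apply mul_le_mul_of_nonneg_left _ (hμ n)
  by_cases h3 : n ∈ T
  · rw [if_pos h3]
    nlinarith [sq_nonneg (1 - lam * N)]
  · rw [if_neg h3]
    have h4 : N = 0 := by
      apply sum_eq_zero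
      intro i hi
      rw [if_neg]
      exact fun h => h3 (hT n hn i hi h)
    rw [h4]
    simp

/-- the numerical inequality -/
lemma numer {x K ε S a b : ℝ} (hx : 10000 ≤ x) (hK : 1 ≤ K) (hS : 0 < S) (hεS : K ^ 2 * ε ≤ S) (hε : 0 ≤ ε)
    (ha : (99 / 100 * x * S - K * ε) / (200 * S) ≤ a)
    (hb : b ≤ (x ^ 2 * S / 48 + K ^ 2 * ε) / (200 * S)) :
    1 / 10 ≤ (2 * (48 / x) - (48 / x) ^ 2) * a - (48 / x) ^ 2 * b := by
  have hx0 : 0 < x := by linarith
  obtain ⟨l, hl⟩ : ∃ l : ℝ, l = 48 / x := ⟨_, rfl⟩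
  rw [← hl]
  have hl0 : 0 < l := by rw [hl]; positivity
  have hlx : l * x = 48 := by rw [hl]; field_simp
  have hl1 : l ≤ 48 / 10000 := by
    rw [hl]
    exact div_le_div_of_nonneg_left (by norm_num) (by norm_num) hx
  have h1 : (99 / 100 * x - 1) / 200 ≤ a := by
    refine le_trans ?_ ha
    rw [div_le_div_iff₀ (by norm_num) (by positivity)]
    have h2 : K * ε ≤ S := by nlinarith
    nlinarith
  have h2 : b ≤ (x ^ 2 / 48 + 1) / 200 := by
    refine hb.trans ?_
    rw [div_le_div_iff₀ (by positivity) (by norm_num)]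
    nlinarith
  have h3 : 0 ≤ 2 * l - l ^ 2 := by nlinarith
  have h4 : (2 * l - l ^ 2) * ((99 / 100 * x - 1) / 200) ≤ (2 * l - l ^ 2) * a := mul_le_mul_of_nonneg_left h1 h3
  have h5 : l ^ 2 * b ≤ l ^ 2 * ((x ^ 2 / 48 + 1) / 200) := mul_le_mul_of_nonneg_left h2 (sq_nonneg _)
  have h6 : (2 * l - l ^ 2) * ((99 / 100 * x - 1) / 200) =
      (2 - l) * (99 / 100 * (l * x) - l) / 200 := by ring
  have h7 : l ^ 2 * ((x ^ 2 / 48 + 1) / 200) = ((l * x) ^ 2 / 48 + l ^ 2) / 200 := by ring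
  rw [h6, hlx] at h4
  rw [h7, hlx] at h5
  nlinarith

open Pool.Agent.H378R2 Pool.Agent.H387R2 Pool.Agent.H387R2.MB Pool.Agent.H362R2.QT Pool.Agent.Y520.NP

/-- lower bound of the main quantity for a fixed modulus -/
lemma QQ_fix (K : ℕ) {X : ℝ} (hX : 40 ≤ X) (hL : 1 ≤ LL X) {W : ℕ} (hW : 0 < W) {E : Finset ℕ}
    (hE : ∀ p ∈ E, p.Prime) : X / (20 * W * Real.log X ^ K) ≤ QQ K X W E := by
  have hX0 : 0 < X := by linarith
  have hlog : 200 ≤ Real.log X := by unfold LL at hL; linarith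
  have hW0 : (0:ℝ) < W := by exact_mod_cast hW
  have hL0 : 0 < LL X := by linarith
  have hBE := BE_pos hE
  have hBE1 := BE_le_one hE
  have hLX : LL X ≤ Real.log X := by unfold LL; linarith
  have h4 := MPhi_ge X hX
  have hM0 : 0 ≤ MPhi X := MPhi_nonneg X
  have e1 : X / 20 * (1 / (W:ℝ)) * (1 / Real.log X ^ K) ≤
      (MPhi X * (1 / (W : ℝ))) * (1 / (LL X * BE E) ^ K) := by
    have a2 : 1 / Real.log X ^ K ≤ 1 / (LL X * BE E) ^ K := by
      apply one_div_le_one_div_of_le (by positivity)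
      apply pow_le_pow_left₀ (by positivity)
      calc LL X * BE E ≤ LL X * 1 := by gcongr
        _ ≤ Real.log X := by linarith
    have : (0:ℝ) ≤ 1 / Real.log X ^ K := by positivity
    gcongr
  unfold QQ
  refine le_trans (le_of_eq ?_) e1
  field_simp

/-- the totient of the modulus -/
lemma BE_tot (W : ℕ) : (W : ℝ) * BE W.primeFactors = W.totient := by
  have h1 := Nat.totient_eq_mul_prod_factors W
  have h2 : ((W.totient : ℚ) : ℝ) = (((W : ℚ) * ∏ p ∈ W.primeFactors, (1 - (p : ℚ)⁻¹) : ℚ) : ℝ) := by rw [h1]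
  push_cast at h2
  rw [h2]
  unfold BE
  congr 1
  exact prod_congr rfl fun p _ => by rw [one_div]

lemma nu_supp {X : ℝ} (hX : 0 < X) {W a n : ℕ} (h : nu X W a n ≠ 0) :
    X < n ∧ (n : ℝ) ≤ 3 * X ∧ n ≡ a [MOD W] := by
  unfold nu at h
  split_ifs at h with h1
  · refine ⟨?_, ?_, h1⟩
    · by_contra hle
      push Not at hle
      exact h (Phi_eq_zero_of_le (by positivity) ((div_le_one hX).2 hle))
    · by_contra hle
      push Not at hle
      apply h
      apply Phi_eq_zero_of_ge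
      have h2 := Real.exp_one_lt_d9
      rw [le_div_iff₀ hX]
      nlinarith
  · exact absurd rfl h

lemma nu_le_one (X : ℝ) (W a n : ℕ) : nu X W a n ≤ 1 := by
  unfold nu
  split_ifs
  · exact Phi_le_one _
  · norm_num

/-- the weights are bounded on rough tuples -/
lemma sqw_rough {K B : ℕ} {δ X : ℝ} (hδ : 0 < δ) (hX : 4 ≤ X) (hL : 1 ≤ LL X) (E : Finset ℕ)
    (f : Fin B → ℝ → ℝ) (A : Finset (Fin K → Fin B)) (hf1 : ∀ l x, |f l x| ≤ 1) (t : Fin K → ℕ) (n : ℕ)
    (hn : 1 ≤ n) (hn3 : (n : ℝ) ≤ 3 * X) (htl : ∀ j, (t j : ℝ) ≤ Real.sqrt X)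
    (hrg : ∀ j, Rg δ X (n + t j)) :
    sqw E X f A (fun j => (n : ℤ) + t j) ^ 2 ≤ ((A.card : ℝ) * (2 ^ ⌈400 / δ⌉₊) ^ K) ^ 2 := by
  have hsq : Real.sqrt X ≤ X := by
    rw [Real.sqrt_le_left (by linarith)]
    nlinarith
  have hVb : ∀ (j : Fin K) (l : Fin B),
      |VVm E (RR X) (LL X) (f l) ((n : ℤ) + t j)| ≤ 2 ^ ⌈400 / δ⌉₊ := by
    intro j l
    have e : (n : ℤ) + t j = ((n + t j : ℕ) : ℤ) := by push_cast; ring
    rw [e]
    apply VV_rg_le hδ hX hL (by omega) _ (hrg j) E _ _ (hf1 l)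
    push_cast
    have := htl j
    linarith
  have habs : |sqw E X f A (fun j => (n : ℤ) + t j)| ≤ (A.card : ℝ) * (2 ^ ⌈400 / δ⌉₊) ^ K := by
    unfold sqw
    refine (abs_sum_le_sum_abs _ _).trans ?_
    rw [← nsmul_eq_mul]
    apply sum_le_card_nsmul
    intro a _
    rw [abs_prod]
    calc ∏ j : Fin K, |VVm E (RR X) (LL X) (f (a j)) ((n : ℤ) + t j)| ≤
        ∏ _j : Fin K, (2:ℝ) ^ ⌈400 / δ⌉₊ :=
          Finset.prod_le_prod (fun j _ => abs_nonneg _) (fun j _ => hVb j (a j))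
      _ = _ := by rw [prod_const, card_univ, Fintype.card_fin]
  rw [← sq_abs]
  exact pow_le_pow_left₀ (abs_nonneg _) habs 2

/-- the standing conditions for a fixed modulus -/
lemma cnd_fix {K : ℕ} (z W a0 : ℕ) (t : Fin K → ℕ) (hW : 0 < W) (hWsq : Squarefree W)
    (hWz : ∀ p : ℕ, p.Prime → p ≤ z → p ∣ W)
    (hdiff : ∀ i j, i ≠ j → ∀ p : ℕ, p.Prime → (p : ℤ) ∣ (t i : ℤ) - t j → p ∣ W)
    (hcop : ∀ i, Nat.Coprime (a0 + t i) W) :
    ∀ᶠ X : ℝ in atTop, ∀ (θ : ℝ) (z' : ℕ), 0 ≤ θ → z' ≤ z → Cnd θ X z' W W.primeFactors a0 t := by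
  have tsq : Tendsto (fun X : ℝ => Real.sqrt X) atTop atTop := Real.tendsto_sqrt_atTop
  filter_upwards [Pool.Agent.TH891.PR.cs_fix z W hW hWz,
    tsq.eventually_ge_atTop (((∑ j, t j : ℕ)) : ℝ)] with X h1 h2
  intro θ z' hθ hz'
  have hcs := h1.1
  refine ⟨⟨hcs.gs.mono hz', hcs.pos, hcs.le, hcs.dv⟩, hWsq, ?_, hcop, ?_, ?_, (BE_tot W).le, ?_⟩
  · intro i j hij p hp hpE hpd
    exact hpE (Nat.mem_primeFactors.2 ⟨hp, hdiff i j hij p hp hpd, hW.ne'⟩)
  · intro j
    refine le_trans ?_ h2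
    have : t j ≤ ∑ j, t j := single_le_sum (f := t) (fun _ _ => Nat.zero_le _) (mem_univ j)
    exact_mod_cast this
  · rw [filter_false_of_mem]
    · simpa using hθ
    · intro p hp h3
      exact h3 (Nat.dvd_of_mem_primeFactors hp)
  · rw [BE_tot W]
    have : (0:ℝ) ≤ W.totient := Nat.cast_nonneg _
    nlinarith

/-- the block of coordinates -/
lemma card_block {K a b : ℕ} (hab : a ≤ b) (hb : b ≤ K) :
    (((univ : Finset (Fin K)).filter (fun i : Fin K => a ≤ (i : ℕ) ∧ (i : ℕ) < b)).card : ℝ) = (b : ℝ) - a := by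
  have h1 : ((univ : Finset (Fin K)).filter (fun i : Fin K => a ≤ (i : ℕ) ∧ (i : ℕ) < b)).map Fin.valEmbedding = Ico a b := by
    ext n
    rw [Finset.mem_map, mem_Ico]
    constructor
    · rintro ⟨i, hi, rfl⟩
      exact (mem_filter.1 hi).2
    · intro hn
      exact ⟨⟨n, by omega⟩, mem_filter.2 ⟨mem_univ _, hn⟩, rfl⟩
  rw [← card_map Fin.valEmbedding, h1, Nat.card_Ico, Nat.cast_sub hab]

theorem blk (h : S_FAMB) : S_BLK := by
  classical
  obtain ⟨off, hmono, hoff0, hF⟩ := h (1 / 100) 10000 (by norm_num) (by norm_num)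
  refine ⟨off, hmono, hoff0, fun J => ?_⟩
  rcases Nat.eq_zero_or_pos J with hJ | hJ
  · subst hJ
    refine ⟨0, fun W a0 t _ _ _ _ _ => ⟨fun _ _ => 0, ?_, ?_⟩⟩
    · refine Eventually.of_forall fun X => ⟨fun _ => le_rfl, fun n hn => absurd rfl hn, ?_, ?_⟩
      · simp
      · intro s hs; omega
    · intro β hβ
      refine ⟨1, 1, one_pos, one_pos, ?_⟩
      filter_upwards [eventually_gt_atTop 0] with X hX
      refine ⟨by simp [hβ.le], fun n _ => ?_⟩
      rw [hoff0]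
      positivity
  have hoffJ : 0 < off J := by
    have := hmono hJ
    omega
  obtain ⟨K0, hK0⟩ : ∃ K0, off J = K0 + 1 := ⟨off J - 1, by omega⟩
  obtain ⟨B, f, c, A, S, x, hsm, hcs, hf0, hc, hA, hf1, hII0, hIIS, hx⟩ := hF J K0 hK0
  have hS0 : 0 < S := hII0.trans_le hIIS
  obtain ⟨KK, hKK⟩ : ∃ KK : ℝ, KK = (K0 : ℝ) + 1 := ⟨_, rfl⟩
  have hKK1 : 1 ≤ KK := by
    rw [hKK]
    have : (0:ℝ) ≤ K0 := Nat.cast_nonneg _
    linarith
  obtain ⟨ε, hεdef⟩ : ∃ ε : ℝ, ε = S / KK ^ 2 := ⟨_, rfl⟩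
  have hε : 0 < ε := by rw [hεdef]; positivity
  have hεK : KK ^ 2 * ε = S := by rw [hεdef]; field_simp
  have hεS : ε ≤ S := by
    rw [← hεK]
    exact le_mul_of_one_le_left hε.le (one_le_pow₀ hKK1)
  obtain ⟨C, hC0, z3, hnr⟩ := nonrough f c A hsm hcs hf0 hc hA hf1 hII0.le
  obtain ⟨θ1, hθ1, z1, hone⟩ := ONE f c A hsm hcs hf0 hc hA hf1 ε hε
  obtain ⟨θ2, hθ2, z2, hpair⟩ := PAIR prg_holds RAMP BV f c A 48 1 hsm hcs hf0 hc hA hf1 (by norm_num)
    (by norm_num) le_rfl (by norm_num) ε hε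
  obtain ⟨z4, htot⟩ := TOT f c A hsm hcs hf0 hc hA hf1 ε hε
  obtain ⟨z, hz⟩ : ∃ z : ℕ, z = max z1 (max z2 (max z3 z4)) := ⟨_, rfl⟩
  have hz1 : z1 ≤ z := by rw [hz]; exact le_max_left _ _
  have hz2 : z2 ≤ z := by rw [hz]; exact (le_max_left _ _).trans (le_max_right _ _)
  have hz3 : z3 ≤ z := by rw [hz]; exact (le_max_left _ _).trans ((le_max_right _ _).trans (le_max_right _ _))
  have hz4 : z4 ≤ z := by rw [hz]; exact (le_max_right _ _).trans ((le_max_right _ _).trans (le_max_right _ _))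
  refine ⟨z, ?_⟩
  intro W a0 t hW hWsq hWz hdiff hcop
  obtain ⟨E, hE⟩ : ∃ E : Finset ℕ, E = W.primeFactors := ⟨_, rfl⟩
  obtain ⟨tt, htt⟩ : ∃ tt : Fin (K0 + 1) → ℕ, tt = fun j : Fin (K0 + 1) => t j := ⟨_, rfl⟩
  have htt' : ∀ j, tt j = t j := fun j => by rw [htt]
  have hEp : ∀ p ∈ E, p.Prime := fun p hp => by
    rw [hE] at hp
    exact Nat.prime_of_mem_primeFactors hp
  have hcnd : ∀ᶠ X : ℝ in atTop, ∀ (θ : ℝ) (z' : ℕ), 0 ≤ θ → z' ≤ z → Cnd θ X z' W E a0 tt := by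
    rw [hE]
    apply cnd_fix z W a0 tt hW hWsq hWz
    · intro i j hij p hp hpd
      rw [htt', htt'] at hpd
      exact hdiff i (by omega) j (by omega) (fun h => hij (Fin.ext h)) p hp hpd
    · intro i
      rw [htt']
      exact hcop i (by omega)
  obtain ⟨mu, hmu⟩ : ∃ mu : ℝ → ℕ → ℝ, mu = fun X n =>
      nu X W a0 n * sqw E X f A (fun j => (n : ℤ) + tt j) ^ 2 / (S * QQ (K0 + 1) X W E) := ⟨_, rfl⟩
  have hmu' : ∀ X n, mu X n =
      nu X W a0 n * sqw E X f A (fun j => (n : ℤ) + tt j) ^ 2 / (S * QQ (K0 + 1) X W E) := fun X n => by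
    rw [hmu]
  refine ⟨mu, ?_, ?_⟩
  · filter_upwards [hcnd, hone, hpair, htot, eventually_ge_atTop 40, LL_tendsto.eventually_ge_atTop 1,
      Real.tendsto_log_atTop.eventually_gt_atTop 0] with X hC h1 h2 h3 h5 h6 h7
    have hX0 : 0 < X := by linarith
    have hW0 : (0:ℝ) < W := by exact_mod_cast hW
    obtain ⟨Q, hQ⟩ : ∃ Q : ℝ, Q = QQ (K0 + 1) X W E := ⟨_, rfl⟩
    have hQ0 : 0 < Q := by
      rw [hQ]
      exact lt_of_lt_of_le (by positivity) (QQ_fix (K0 + 1) h5 h6 hW hEp)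
    have hSQ : 0 < S * Q := by positivity
    have hm : ∀ n, mu X n = nu X W a0 n * sqw E X f A (fun j => (n : ℤ) + tt j) ^ 2 / (S * Q) := fun n => by
      rw [hmu', hQ]
    have hμ0 : ∀ n, 0 ≤ mu X n := fun n => by
      rw [hm]
      exact div_nonneg (mul_nonneg (nu_nonneg _ _ _ _) (sq_nonneg _)) hSQ.le
    refine ⟨hμ0, ?_, ?_, ?_⟩
    · intro n hn
      apply nu_supp hX0
      intro h0
      apply hn
      rw [hm, h0, zero_mul, zero_div]
    · have s3 := h3 1 W E a0 tt (hC 1 z4 zero_le_one hz4)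
      rw [← hQ] at s3
      have e1 : ∑ n ∈ Icc 1 ⌊3 * X⌋₊, mu X n =
          (∑ n ∈ Icc 1 ⌊3 * X⌋₊, nu X W a0 n * sqw E X f A (fun j => (n : ℤ) + tt j) ^ 2) / (S * Q) := by
        rw [sum_div]
        exact sum_congr rfl fun n _ => hm n
      rw [e1, div_le_iff₀ hSQ]
      refine s3.trans ?_
      nlinarith
    · intro s hs
      obtain ⟨hx1, hx2⟩ := hx s hs
      have hlt : off s < off (s + 1) := hmono (Nat.lt_succ_self s)
      have hle : off (s + 1) ≤ K0 + 1 := by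
        rw [← hK0]
        exact hmono.monotone (by omega)
      obtain ⟨bl, hbl⟩ : ∃ bl : Finset (Fin (K0 + 1)), bl =
        (univ : Finset (Fin (K0 + 1))).filter (fun i : Fin (K0 + 1) => off s ≤ (i : ℕ) ∧ (i : ℕ) < off (s + 1)) := ⟨_, rfl⟩
      have hmem : ∀ i, i ∈ bl ↔ off s ≤ (i : ℕ) ∧ (i : ℕ) < off (s + 1) := fun i => by
        rw [hbl, mem_filter]
        exact ⟨fun h => h.2, fun h => ⟨mem_univ _, h⟩⟩
      have hcard : (bl.card : ℝ) = (off (s + 1) : ℝ) - off s := by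
        rw [hbl]
        exact card_block hlt.le hle
      obtain ⟨Ks, hKs⟩ : ∃ Ks : ℝ, Ks = (off (s + 1) : ℝ) - off s := ⟨_, rfl⟩
      rw [← hKs] at hcard
      have hKs1 : 1 ≤ Ks := by
        rw [hKs]
        have : (off s : ℝ) + 1 ≤ off (s + 1) := by exact_mod_cast hlt
        linarith
      have hKsK : Ks ≤ KK := by
        rw [hKs, hKK]
        have h8 : (off (s + 1) : ℝ) ≤ K0 + 1 := by exact_mod_cast hle
        have h9 : (0:ℝ) ≤ off s := Nat.cast_nonneg _
        linarith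
      have hKs0 : 0 < Ks := by linarith
      have hKε : Ks ^ 2 * ε ≤ S := by
        rw [← hεK]
        gcongr
      have hone' : ∀ i ∈ bl, (99 / 100 * x s * S / Ks - ε) / (200 * S) ≤
          ∑ n ∈ Icc 1 ⌊3 * X⌋₊, mu X n * (if (n + tt i).Prime then 1 else 0) := by
        intro i hi
        have s1 := h1 W E a0 tt (hC θ1 z1 hθ1.le hz1) i
        rw [← hQ] at s1
        have e1 : ∑ n ∈ Icc 1 ⌊3 * X⌋₊, mu X n * (if (n + tt i).Prime then 1 else 0) =
            (∑ n ∈ Icc 1 ⌊3 * X⌋₊, nu X W a0 n *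
              (if (n + tt i).Prime then sqw E X f A (fun j => (n : ℤ) + tt j) ^ 2 else 0)) / (S * Q) := by
          rw [sum_div]
          apply sum_congr rfl
          intro n _
          rw [hm]
          split_ifs
          · rw [mul_one]
          · rw [mul_zero, mul_zero, zero_div]
        rw [e1]
        have h8 : 99 / 100 * x s * S / Ks ≤ JJ f A i := by
          rw [div_le_iff₀ hKs0]
          have := (hx2 i ((hmem i).1 hi).1 ((hmem i).1 hi).2).1
          rw [← hKs] at this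
          linarith
        calc (99 / 100 * x s * S / Ks - ε) / (200 * S) ≤ (JJ f A i - ε) / (200 * S) := by gcongr
          _ = ((JJ f A i - ε) / 200 * Q) / (S * Q) := by field_simp
          _ ≤ _ := by gcongr
      have hpair' : ∀ i ∈ bl, ∀ j ∈ bl.erase i,
          ∑ n ∈ Icc 1 ⌊3 * X⌋₊, mu X n * ((if (n + tt i).Prime then 1 else 0) * (if (n + tt j).Prime then 1 else 0)) ≤
          (x s ^ 2 * S / Ks ^ 2 / 48 + ε) / (200 * S) := by
        intro i hi j hj
        rw [mem_erase] at hj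
        obtain ⟨j0, hj0⟩ := Fin.exists_succAbove_eq hj.1
        have s2 := h2 W E a0 tt (hC θ2 z2 hθ2.le hz2) i j0
        rw [← hQ, hj0] at s2
        have e1 : ∑ n ∈ Icc 1 ⌊3 * X⌋₊, mu X n * ((if (n + tt i).Prime then 1 else 0) * (if (n + tt j).Prime then 1 else 0)) =
            (∑ n ∈ Icc 1 ⌊3 * X⌋₊, nu X W a0 n *
              (if (n + tt i).Prime ∧ (n + tt j).Prime then sqw E X f A (fun j => (n : ℤ) + tt j) ^ 2 else 0)) / (S * Q) := by
          rw [sum_div]
          apply sum_congr rfl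
          intro n _
          rw [hm]
          by_cases h9 : (n + tt i).Prime
          · by_cases h10 : (n + tt j).Prime
            · rw [if_pos h9, if_pos h10, if_pos ⟨h9, h10⟩, mul_one, mul_one]
            · rw [if_neg h10, mul_zero, mul_zero, if_neg (show ¬ ((n + tt i).Prime ∧ (n + tt j).Prime) from
                fun h => h10 h.2), mul_zero, zero_div]
          · rw [if_neg h9, zero_mul, mul_zero, if_neg (show ¬ ((n + tt i).Prime ∧ (n + tt j).Prime) from
                fun h => h9 h.1), mul_zero, zero_div]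
        rw [e1]
        have h8 : JJ2 f A i j0 ≤ x s ^ 2 * S / Ks ^ 2 := by
          rw [le_div_iff₀ (by positivity)]
          have h9 := (hx2 i ((hmem i).1 hi).1 ((hmem i).1 hi).2).2 j0
          rw [hj0, ← hKs] at h9
          have h10 := h9 ((hmem j).1 hj.2).1 ((hmem j).1 hj.2).2
          linarith
        calc _ ≤ ((JJ2 f A i j0 / 48 + ε) / 200 * Q) / (S * Q) := by gcongr
          _ = (JJ2 f A i j0 / 48 + ε) / (200 * S) := by field_simp
          _ ≤ _ := by gcongr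
      have hmass := mass (Icc 1 ⌊3 * X⌋₊) (mu X) hμ0 bl (fun n i => (n + tt i).Prime)
        ((Icc 1 ⌊3 * X⌋₊).filter (fun n => ∃ i ∈ Ico (off s) (off (s + 1)), (n + t i).Prime))
        (filter_subset _ _) (by
          intro n hn i hi hp
          rw [mem_filter]
          rw [htt'] at hp
          exact ⟨hn, i, mem_Ico.2 ((hmem i).1 hi), hp⟩) (48 / x s)
      refine le_trans ?_ hmass
      apply numer (K := Ks) (ε := ε) (S := S) hx1 hKs1 hS0 hKε hε.le
      · refine le_trans (le_of_eq ?_) (card_nsmul_le_sum bl _ _ hone')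
        rw [nsmul_eq_mul, hcard]
        field_simp
      · have hbd : 0 ≤ (x s ^ 2 * S / Ks ^ 2 / 48 + ε) / (200 * S) := by positivity
        have h8 : ∀ i ∈ bl, ∑ j ∈ bl.erase i, ∑ n ∈ Icc 1 ⌊3 * X⌋₊,
            mu X n * ((if (n + tt i).Prime then 1 else 0) * (if (n + tt j).Prime then 1 else 0)) ≤
            Ks * ((x s ^ 2 * S / Ks ^ 2 / 48 + ε) / (200 * S)) := by
          intro i hi
          refine (sum_le_card_nsmul _ _ _ (hpair' i hi)).trans ?_
          rw [nsmul_eq_mul]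
          apply mul_le_mul_of_nonneg_right _ hbd
          rw [← hcard]
          exact_mod_cast card_le_card (erase_subset _ _)
        refine (sum_le_card_nsmul _ _ _ h8).trans (le_of_eq ?_)
        rw [nsmul_eq_mul, hcard]
        field_simp
  · intro β hβ
    obtain ⟨δ, hδ⟩ : ∃ δ : ℝ, δ = min (1 / 10) (β * S / (C + 1)) := ⟨_, rfl⟩
    have hδ0 : 0 < δ := by
      rw [hδ]
      exact lt_min (by norm_num) (by positivity)
    have hδ1 : δ ≤ 1 / 10 := by rw [hδ]; exact min_le_left _ _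
    have hδC : C * δ ≤ β * S := by
      have h1 : δ ≤ β * S / (C + 1) := by rw [hδ]; exact min_le_right _ _
      rw [le_div_iff₀ (by linarith)] at h1
      nlinarith
    obtain ⟨Wb, hWb⟩ : ∃ Wb : ℝ, Wb = ((A.card : ℝ) * (2 ^ ⌈400 / δ⌉₊) ^ (K0 + 1)) ^ 2 + 1 := ⟨_, rfl⟩
    have hWb0 : 0 < Wb := by rw [hWb]; positivity
    have hW0 : (0:ℝ) < W := by exact_mod_cast hW
    refine ⟨δ / 200, Wb * (20 * W) / S, by positivity, by positivity, ?_⟩
    filter_upwards [hcnd, hnr δ hδ0 hδ1, eventually_ge_atTop 40, LL_tendsto.eventually_ge_atTop 1,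
      Real.tendsto_log_atTop.eventually_gt_atTop 0] with X hC h4 h5 h6 h7
    have hX0 : 0 < X := by linarith
    obtain ⟨Q, hQ⟩ : ∃ Q : ℝ, Q = QQ (K0 + 1) X W E := ⟨_, rfl⟩
    have hQfix := QQ_fix (K0 + 1) h5 h6 hW hEp
    have hQ0 : 0 < Q := by
      rw [hQ]
      exact lt_of_lt_of_le (by positivity) hQfix
    rw [← hQ] at hQfix
    have hSQ : 0 < S * Q := by positivity
    have hm : ∀ n, mu X n = nu X W a0 n * sqw E X f A (fun j => (n : ℤ) + tt j) ^ 2 / (S * Q) := fun n => by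
      rw [hmu', hQ]
    have hpow : X ^ (δ / 200) = Real.exp (δ * LL X) := by
      rw [Real.rpow_def_of_pos hX0]
      congr 1
      unfold LL
      ring
    have hR : ∀ n : ℕ, (∀ i < off J, ∀ p : ℕ, p.Prime → p ∣ n + t i → X ^ (δ / 200) < p) ↔
        ∀ j, Rg δ X (n + tt j) := by
      intro n
      constructor
      · intro h8 j p hp hpd
        rw [mem_PS] at hp
        rw [htt'] at hpd
        have h9 := h8 j (by omega) p hp.1 hpd
        rw [hpow] at h9
        linarith [hp.2]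
      · intro h8 i hi p hp hpd
        rw [hpow]
        have h9 := h8 ⟨i, by omega⟩
        rw [htt'] at h9
        exact rg_prime h9 hp hpd
    constructor
    · have hcn := hC 0 z3 le_rfl hz3
      have s5 := h4 W E a0 tt hcn.cs hcn.dt hcn.cp (hcn.sm.trans hδ0.le)
      have s6 : ∑ n ∈ (Icc 1 ⌊3 * X⌋₊).filter
          (fun n => ¬ ∀ i < off J, ∀ p : ℕ, p.Prime → p ∣ n + t i → X ^ (δ / 200) < p), mu X n ≤
          (∑ n ∈ Icc 1 ⌊3 * X⌋₊, ∑ j : Fin (K0 + 1), ∑ p ∈ PS δ X,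
            nu X W a0 n * (if (p : ℤ) ∣ (n : ℤ) + tt j then sqw E X f A (fun j => (n : ℤ) + tt j) ^ 2 else 0)) /
            (S * Q) := by
        rw [sum_filter, sum_div]
        apply sum_le_sum
        intro n _
        have hterm : ∀ (j : Fin (K0 + 1)) (p : ℕ), 0 ≤ nu X W a0 n *
            (if (p : ℤ) ∣ (n : ℤ) + tt j then sqw E X f A (fun j => (n : ℤ) + tt j) ^ 2 else 0) := by
          intro j p
          apply mul_nonneg (nu_nonneg _ _ _ _)
          split_ifs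
          · exact sq_nonneg _
          · exact le_rfl
        have hnn : 0 ≤ ∑ j : Fin (K0 + 1), ∑ p ∈ PS δ X,
            nu X W a0 n * (if (p : ℤ) ∣ (n : ℤ) + tt j then sqw E X f A (fun j => (n : ℤ) + tt j) ^ 2 else 0) :=
          sum_nonneg fun j _ => sum_nonneg fun p _ => hterm j p
        by_cases h8 : ∀ j, Rg δ X (n + tt j)
        · rw [if_neg (not_not.2 ((hR n).2 h8))]
          exact div_nonneg hnn hSQ.le
        · rw [if_pos (fun h => h8 ((hR n).1 h))]
          unfold Rg at h8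
          push Not at h8
          obtain ⟨j, p, hp, hpd⟩ := h8
          rw [hm]
          apply div_le_div_of_nonneg_right _ hSQ.le
          have e1 : nu X W a0 n * sqw E X f A (fun j => (n : ℤ) + tt j) ^ 2 =
              nu X W a0 n * (if (p : ℤ) ∣ (n : ℤ) + tt j then sqw E X f A (fun j => (n : ℤ) + tt j) ^ 2 else 0) := by
            rw [if_pos]
            have e : ((n + tt j : ℕ) : ℤ) = (n : ℤ) + tt j := by push_cast; ring
            rw [← e]
            exact Int.natCast_dvd_natCast.2 hpd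
          rw [e1]
          refine le_trans (single_le_sum
            (f := fun p : ℕ => nu X W a0 n *
              (if (p : ℤ) ∣ (n : ℤ) + tt j then sqw E X f A (fun j => (n : ℤ) + tt j) ^ 2 else 0))
            (fun p _ => hterm j p) hp) ?_
          exact single_le_sum (f := fun j => ∑ p ∈ PS δ X,
            nu X W a0 n * (if (p : ℤ) ∣ (n : ℤ) + tt j then sqw E X f A (fun j => (n : ℤ) + tt j) ^ 2 else 0))
            (fun j _ => sum_nonneg fun p _ => hterm j p) (mem_univ j)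
      refine s6.trans ?_
      rw [div_le_iff₀ hSQ]
      refine s5.trans ?_
      have e2 : MPhi X * (1 / (W : ℝ)) * (1 / (LL X * BE E) ^ (K0 + 1)) = Q := by
        rw [hQ]
        rfl
      rw [e2]
      nlinarith
    · intro n hn
      rw [hR] at hn
      have hlogp : 0 < Real.log X ^ (K0 + 1) := by positivity
      rw [hK0]
      by_cases hnu : nu X W a0 n = 0
      · rw [hm, hnu, zero_mul, zero_div]
        positivity
      · obtain ⟨h8, h9, _⟩ := nu_supp hX0 hnu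
        have hn1 : 1 ≤ n := by
          have : (0:ℝ) < n := by linarith
          exact_mod_cast this
        have hb := sqw_rough hδ0 (by linarith) h6 E f A hf1 tt n hn1 h9 (hC 0 z3 le_rfl hz3).tl hn
        have hnum : nu X W a0 n * sqw E X f A (fun j => (n : ℤ) + tt j) ^ 2 ≤ Wb := by
          calc _ ≤ 1 * sqw E X f A (fun j => (n : ℤ) + tt j) ^ 2 :=
                mul_le_mul_of_nonneg_right (nu_le_one _ _ _ _) (sq_nonneg _)
            _ ≤ Wb := by rw [hWb]; linarith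
        rw [hm]
        calc _ ≤ Wb / (S * Q) := by gcongr
          _ ≤ Wb / (S * (X / (20 * W * Real.log X ^ (K0 + 1)))) := by gcongr
          _ = _ := by field_simp

end Pool.Agent.Y291.NP
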